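import Pool.Agent.H.MP_48d09b_al.D

set_option autoImplicit false

namespace Pool.Agent.Results.MP_48d09b_al.Exists

open Pool.Agent.H.MP_48d09b_al

/-- A finitely generated residually finite group whose outer automorphism group is infinite and
residually finite and which is not inner automorphism separable. -/
theorem result : ∃ (Γ : Type) (_ : Group Γ), Group.FG Γ ∧ RF Γ ∧
    Infinite (MulAut Γ ⧸ Inn Γ) ∧ RF (MulAut Γ ⧸ Inn Γ) ∧ ¬ IAS Γ := by
  haveI : IsSimpleGroup (alternatingGroup (Fin 5)) := alternatingGroup.isSimpleGroup (by simp)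
  haveI : Fact (∃ a b : alternatingGroup (Fin 5), a * b ≠ b * a) :=
    ⟨⟨⟨Equiv.swap 0 1 * Equiv.swap 1 2, Equiv.Perm.mem_alternatingGroup.2 (by decide)⟩,
      ⟨Equiv.swap 1 2 * Equiv.swap 2 3, Equiv.Perm.mem_alternatingGroup.2 (by decide)⟩,
      by decide⟩⟩
  refine ⟨G (alternatingGroup (Fin 5)), inferInstance, Group.fg_iff.2
    ⟨insert (T 1) (Set.range (dl 0)), eq_top_iff.2 fun g _ => gen _
      (Subgroup.subset_closure (Or.inl rfl))
      (fun a => Subgroup.subset_closure (Or.inr ⟨a, rfl⟩)) g, (Set.finite_range _).insert _⟩,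
    rf_G, out_inf, rf_out, not_IAS⟩

end Pool.Agent.Results.MP_48d09b_al.Exists
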